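import Mathlib
import Pool.Agent.H14.PatDefs

set_option autoImplicit false
set_option maxRecDepth 100000

namespace Pool.Agent.Results.MP_923311_co.NotPure

open Pool.Agent.H14.PatDefs

instance (l : List ℕ) : Decidable (IsPerm l) := by unfold IsPerm; infer_instance
instance (σ π τ : List ℕ) : Decidable (InOpen σ π τ) := by unfold InOpen; infer_instance

theorem mem_shorter {σ π τ : List ℕ} (h : InOpen σ π τ) : τ ∈ shorter (π.length + 1) := by
  obtain ⟨h1, -, ⟨s, hs, hl, -⟩, -⟩ := h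
  have := (List.mem_sublists.1 hs).length_le
  simp only [shorter, List.mem_flatMap, List.mem_range, List.mem_permutations']
  exact ⟨τ.length, by omega, h1⟩

theorem maxi (σ π : List ℕ) (P : ℤ → Prop) (C : Finset (List ℕ))
    (h1 : Face (fun τ => InOpen σ π τ ∧ P (mu σ τ)) C)
    (h2 : ∀ τ ∈ shorter (π.length + 1), InOpen σ π τ → P (mu σ τ) →
      τ ∈ C ∨ ∃ c ∈ C, ¬ Cont c τ ∧ ¬ Cont τ c) :
    Maximal (Face fun τ => InOpen σ π τ ∧ P (mu σ τ)) C := by
  refine ⟨h1, fun D hD hCD τ hτ => ?_⟩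
  obtain ⟨a, b⟩ := hD.1 τ hτ
  rcases h2 τ (mem_shorter a) a b with h | ⟨c, hc, h3, h4⟩
  · exact h
  · exact absurd (hD.2 c (hCD hc) τ hτ) (by tauto)

theorem result :
    (∃ σ π, IsPerm σ ∧ IsPerm π ∧ Cont σ π ∧ ¬ Pure fun τ => InOpen σ π τ ∧ mu σ τ = 0) ∧
    (∃ σ π, IsPerm σ ∧ IsPerm π ∧ Cont σ π ∧ ¬ Pure fun τ => InOpen σ π τ ∧ mu σ τ ≠ 0) := by
  refine ⟨⟨[0], [0, 3, 2, 1, 4], by decide, by decide, by decide +kernel, fun h => ?_⟩,
    ⟨[1, 0, 2], [1, 4, 3, 5, 0, 2], by decide, by decide, by decide +kernel, fun h => ?_⟩⟩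
  · have := h {[0, 1, 2]} {[2, 1, 0], [0, 3, 2, 1]}
      (maxi _ _ (· = 0) _ (by unfold Face; decide +kernel) (by decide +kernel))
      (maxi _ _ (· = 0) _ (by unfold Face; decide +kernel) (by decide +kernel))
    exact absurd this (by decide)
  · have := h {[1, 3, 0, 2]} {[0, 2, 1, 3], [0, 3, 2, 4, 1]}
      (maxi _ _ (· ≠ 0) _ (by unfold Face; decide +kernel) (by decide +kernel))
      (maxi _ _ (· ≠ 0) _ (by unfold Face; decide +kernel) (by decide +kernel))
    exact absurd this (by decide)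

end Pool.Agent.Results.MP_923311_co.NotPure
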